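import Mathlib

/-!
# Demushkin groups and self-similar actions: definitions for MP_33d618_al
-/

set_option autoImplicit false

namespace Pool.Agent.H5.Dem2

/-- `G` is a pro-`p` group: a compact, Hausdorff, totally disconnected topological group whose
open normal subgroups have index a power of `p`. -/
def IsProP (p : ℕ) (G : Type) [Group G] [TopologicalSpace G] : Prop :=
  IsTopologicalGroup G ∧ CompactSpace G ∧ T2Space G ∧ TotallyDisconnectedSpace G ∧
    ∀ U : Subgroup G, U.Normal → IsOpen (U : Set G) → ∃ k : ℕ, U.index = p ^ k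

/-- `f` is a continuous (locally constant) homomorphism from `G` to `F_p`, i.e. an element of
`H¹(G, F_p)`. -/
def IsHom (p : ℕ) (G : Type) [Group G] [TopologicalSpace G] (f : G → ZMod p) : Prop :=
  IsLocallyConstant f ∧ ∀ g h, f (g * h) = f g + f h

/-- `c` is a continuous inhomogeneous 2-cocycle of `G` with values in `F_p` (trivial action). -/
def IsCocycle (p : ℕ) (G : Type) [Group G] [TopologicalSpace G] (c : G × G → ZMod p) : Prop :=
  IsLocallyConstant c ∧ ∀ g h k, c (h, k) + c (g, h * k) = c (g * h, k) + c (g, h)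

/-- `c` is a continuous inhomogeneous 2-coboundary. -/
def IsCoboundary (p : ℕ) (G : Type) [Group G] [TopologicalSpace G] (c : G × G → ZMod p) : Prop :=
  ∃ b : G → ZMod p, IsLocallyConstant b ∧ ∀ g h, c (g, h) = b g + b h - b (g * h)

/-- `dim H²(G, F_p) = 1`: some cocycle `c` is not a coboundary, and every cocycle is a multiple
of `c` plus a coboundary. -/
def DimH2One (p : ℕ) (G : Type) [Group G] [TopologicalSpace G] : Prop :=
  ∃ c : G × G → ZMod p, IsCocycle p G c ∧ ¬ IsCoboundary p G c ∧
    ∀ d, IsCocycle p G d → ∃ a : ZMod p, IsCoboundary p G (fun q => d q - a * c q)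

/-- The cup product `f ∪ k` of `f` and `k` in `H¹(G, F_p)` is zero in `H²(G, F_p)`: the cocycle
`(g, h) ↦ f g * k h` is a coboundary. -/
def CupZero (p : ℕ) (G : Type) [Group G] [TopologicalSpace G] (f k : G → ZMod p) : Prop :=
  IsCoboundary p G (fun q => f q.1 * k q.2)

/-- `G` is a Demushkin pro-`p` group: a topologically finitely generated pro-`p` group with
`dim H²(G, F_p) = 1` and non-degenerate cup product `H¹ × H¹ → H²`. -/
def IsDemushkin (p : ℕ) (G : Type) [Group G] [TopologicalSpace G] : Prop :=
  IsProP p G ∧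
    (∃ S : Finset G, Dense (Subgroup.closure (S : Set G) : Set G)) ∧
    DimH2One p G ∧
    (∀ f, IsHom p G f → (∀ k, IsHom p G k → CupZero p G f k) → ∀ g, f g = 0) ∧
    (∀ k, IsHom p G k → (∀ f, IsHom p G f → CupZero p G f k) → ∀ g, k g = 0)

/-- `G` is self-similar of index `p`: it has a faithful continuous self-similar action on the
`p`-ary rooted tree (whose vertices are the finite words over `Fin p`) that is transitive on the
first level. -/
def IsSelfSimilar (p : ℕ) (G : Type) [Group G] [TopologicalSpace G] : Prop :=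
  ∃ ρ : G → List (Fin p) → List (Fin p),
    -- action
    (∀ v, ρ 1 v = v) ∧ (∀ g h v, ρ (g * h) v = ρ g (ρ h v)) ∧
    -- by tree automorphisms
    (∀ g v, (ρ g v).length = v.length) ∧
    (∀ g v w, v <+: w → ρ g v <+: ρ g w) ∧
    -- self-similar
    (∀ g x, ∃ y h, ∀ w, ρ g (x :: w) = y :: ρ h w) ∧
    -- faithful
    (∀ g, (∀ v, ρ g v = v) → g = 1) ∧
    -- continuous: all vertex stabilisers are open
    (∀ v, IsOpen {g | ρ g v = v}) ∧
    -- transitive on the first level
    (∀ x y : Fin p, ∃ g, ρ g [x] = [y])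

end Pool.Agent.H5.Dem2
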