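import Pool.Agent.H5.Dem2.Defs
import Pool.Agent.H5.Dem.Stmts
import Pool.Agent.H5.Dem.Chi0
import Pool.Agent.H5.Dem.Cup0
import Pool.Agent.H5.Dem.Eul
import Pool.Agent.H5.Dem.Fin
import Pool.Agent.H5.Dem.Idx
import Pool.Agent.H5.Dem.Inj
import Pool.Agent.H6.Dem.CUP
import Pool.Agent.H15.Dem.Shap
import Pool.Agent.H26.Dem.GRP
import Pool.Agent.H28.Dem.Comm
import Pool.Agent.H28.Dem.Ext
import Pool.Agent.H30.Dem.TREE
import Pool.Agent.H38.Dem.H1C
import Pool.Agent.H38.Dem.IND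
import Pool.Agent.H44.Dem.KL
import Pool.Agent.H64.Dem.FROB
import Pool.Agent.H67.Dem.CHI
import Pool.Agent.H67.Dem.DEMU
import Pool.Agent.H92.Dem.MAX
import Pool.Agent.H97.Dem.UPZ

/-!
# A Demushkin pro-2 group which is not self-similar: the proof (MP_33d618_al)
-/

set_option autoImplicit false

namespace Pool.Agent.H5.Dem2

theorem oldMain : Dem.MainStmt := by
  have hEUL : Dem.EULStmt := Dem.eul Dem.kl Dem.upz Dem.ind Dem.shap Dem.frob
  have hH1C : Dem.H1CStmt := Dem.h1c hEUL Dem.chi0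
  have hCUP : Dem.CUPStmt := Dem.cup_mod hEUL Dem.chi0 hH1C
  have hCUP0 : Dem.CUP0Stmt := Dem.cup0 hCUP Dem.ext Dem.max
  exact Dem.main Dem.grp Dem.demu Dem.tree (Dem.inj (Dem.comm hCUP0 Dem.max hH1C))
    (Dem.idx hH1C hCUP hCUP0) (Dem.fin Dem.chi0 (Dem.chi hEUL) hH1C)

theorem selfSimilar_old {p : ℕ} {G : Type} [Group G] [TopologicalSpace G]
    (h : IsSelfSimilar p G) : Dem.IsSelfSimilar p G := by
  obtain ⟨ρ, h1, hm, hl, hp, hs, hf, hc, ht⟩ := h
  let σ : G →* Equiv.Perm (List (Fin p)) :=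
    { toFun := fun g =>
        { toFun := ρ g
          invFun := ρ g⁻¹
          left_inv := fun v => by rw [← hm, inv_mul_cancel, h1]
          right_inv := fun v => by rw [← hm, mul_inv_cancel, h1] }
      map_one' := by
        ext1 v
        exact h1 v
      map_mul' := fun g k => by
        ext1 v
        exact hm g k v }
  have hσ : ∀ g v, σ g v = ρ g v := fun _ _ => rfl
  refine ⟨σ, fun g v => hl g v, fun g v w hvw => hp g v w hvw, fun g x => hs g x, ?_,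
    fun v => hc v, fun x y => ht x y⟩
  rw [injective_iff_map_eq_one]
  intro g hg
  refine hf g (fun v => ?_)
  rw [← hσ, hg]
  rfl

theorem coboundary_iff {p : ℕ} {G : Type} [Group G] [TopologicalSpace G]
    (z : Dem.Z2 p G) : (Submodule.Quotient.mk z : Dem.H2 p G) = 0 ↔ IsCoboundary p G z.1 := by
  rw [Submodule.Quotient.mk_eq_zero]
  rfl

theorem demushkin_new {p : ℕ} [Fact p.Prime] {G : Type} [Group G] [TopologicalSpace G]
    (h : Dem.IsDemushkin p G) : IsDemushkin p G := by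
  obtain ⟨⟨a1, a2, a3, a4, a5⟩, ⟨S, hS⟩, hd, hl, hr⟩ := h
  refine ⟨⟨a1, a2, a3, a4, a5⟩, ⟨S, dense_iff_closure_eq.mpr hS⟩, ?_, ?_, ?_⟩
  · obtain ⟨v, hv, hw⟩ := finrank_eq_one_iff'.mp hd
    obtain ⟨z, rfl⟩ := Submodule.Quotient.mk_surjective _ v
    refine ⟨z.1, z.2, fun hb => hv ((coboundary_iff z).mpr hb), fun d hd' => ?_⟩
    obtain ⟨a, ha⟩ := hw (Submodule.Quotient.mk (⟨d, hd'⟩ : Dem.Z2 p G))
    refine ⟨a, ?_⟩
    have h0 : (Submodule.Quotient.mk ((⟨d, hd'⟩ : Dem.Z2 p G) - a • z) : Dem.H2 p G) = 0 := by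
      rw [Submodule.Quotient.mk_sub, Submodule.Quotient.mk_smul, ha, sub_self]
    exact (coboundary_iff _).mp h0
  · intro f hf hk g
    have h0 := hl ⟨f, hf⟩ (fun k => (coboundary_iff _).mpr (hk k.1 k.2))
    exact congrFun (congrArg Subtype.val h0) g
  · intro k hk hf g
    have h0 := hr ⟨k, hk⟩ (fun f => (coboundary_iff _).mpr (hf f.1 f.2))
    exact congrFun (congrArg Subtype.val h0) g

theorem newMain : ∃ (G : Type) (_ : Group G) (_ : TopologicalSpace G),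
    IsDemushkin 2 G ∧ Nat.card {f : G → ZMod 2 // IsHom 2 G f} = 2 ^ 3 ∧
      ¬ IsSelfSimilar 2 G := by
  obtain ⟨G, iG, iT, hD, h3, hs⟩ := oldMain
  refine ⟨G, iG, iT, demushkin_new hD, ?_, fun h => hs (selfSimilar_old h)⟩
  haveI : Module.Finite (ZMod 2) (Dem.H1 2 G) :=
    Module.finite_of_finrank_pos (by rw [h3]; norm_num)
  have hc := Module.natCard_eq_pow_finrank (K := ZMod 2) (V := Dem.H1 2 G)
  rw [h3, Nat.card_zmod] at hc
  rw [← hc]
  exact Nat.card_congr (Equiv.subtypeEquivRight (fun f => Iff.rfl))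

end Pool.Agent.H5.Dem2
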